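import Pool.Agent.Q167.LightsOut.Kernel

/-!
# Lights Out grids of nullity exactly two

There are infinitely many `n` for which the `n × n` Lights Out grid has nullity exactly two; in
fact this holds for `n = 2 * 3 ^ k - 1` for every `k ≥ 1`.
-/

set_option autoImplicit false

namespace Pool.Agent.Results.MP_222d4b_co.InfinitelyManyNullityTwo

open Q167.LightsOut

/-- There are infinitely many positive integers `n` with `d(n) = 2`; more precisely
`d(2 * 3 ^ k - 1) = 2` for every `k ≥ 1`. -/
theorem result :
    {n : ℕ | 0 < n ∧ nullity n = 2}.Infinite ∧ ∀ k : ℕ, 1 ≤ k → nullity (2 * 3 ^ k - 1) = 2 := by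
  have key : ∀ k : ℕ, 1 ≤ k → nullity (2 * 3 ^ k - 1) = 2 := by
    intro k hk
    have h : 0 < 3 ^ k := by positivity
    exact nullity_eq_two hk (by omega)
  refine ⟨?_, key⟩
  apply Set.infinite_of_injective_forall_mem (f := fun k : ℕ => 2 * 3 ^ (k + 1) - 1)
  · intro a b hab
    simp only at hab
    have ha : 0 < 3 ^ (a + 1) := by positivity
    have hb : 0 < 3 ^ (b + 1) := by positivity
    have h : 3 ^ (a + 1) = 3 ^ (b + 1) := by omega
    have := Nat.pow_right_injective (le_refl 2 |>.trans (by norm_num : 2 ≤ 3)) h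
    omega
  · intro k
    refine ⟨?_, key (k + 1) (by omega)⟩
    have ha : 0 < 3 ^ (k + 1) := by positivity
    omega

end Pool.Agent.Results.MP_222d4b_co.InfinitelyManyNullityTwo
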